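import Pool.Agent.L5helper68.TF.Geo

/-!
# The Tate conjecture for the products of an arbitrary variety with the varieties of an independent
family, for instance with all products of elliptic curves

Let `F` be a finitely generated field of characteristic zero, `Γ` its Galois group, `W` the `ℓ`-adic
cohomology of the smooth projective varieties over an algebraic closure of `F` (with coefficients
in `ℚ_ℓ` or in any extension `K`) and `χ` the inverse of the cyclotomic character. The theorem is
proved for an abstract Weil cohomology theory with actions of a group `Γ`.

Let `N i`, for `i` in an arbitrary set `ι`, be a family of normal subgroups of `Γ`, that is, a family
of Galois extensions `L i` of `F`, which are **independent** over the field `F_∞` of all roots of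
unity of order a power of `ℓ`, up to finite extensions (`Independent`). The main example: let `E_i`
be elliptic curves over `F`, **with or without complex multiplication**, no two of which are
isogenous over the algebraic closure, and let `L i` be the field of definition of the torsion points
of `E_i` of order a power of `ℓ`. That these fields are independent is a theorem of Serre (and of
Faltings, for the finiteness theorem behind it). Other examples are the fields of definition of the
cohomology of K3 surfaces with non-isomorphic transcendental lattices, and more generally all
families for which the Mumford-Tate conjecture and the independence of the Hodge groups is known.

A variety `P` belongs to the finite set `F` of indices if the Galois group of the compositum of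
`F_∞` and the fields `L i`, `i ∈ F`, acts through a finite group on the cohomology of `P`
(`BelongsTo`): for instance all products of powers of the curves `E_i`, `i ∈ F`, all varieties
which are dominated by such products, and so on.

Let `Z` be an **arbitrary** smooth projective variety over `F`, and let `T ⊆ H(Z)` be the space spanned
by the Tate classes on `Z`.

**Theorem.** There is a finite set `E` of indices, such that

* the number of the elements of `E` is at most the length of the Galois representation `H(Z) / T`
  (`HasChain`); if `H(Z)` is semisimple, it is also at most one half of the dimension of `H(Z) / T`;
* for every variety `P` which belongs to a finite set of indices outside `E`, every Tate class on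
  `Z × P` is a linear combination of products of Tate classes on `Z` and on `P`. In particular the
  Tate conjecture holds for `Z × P` if and only if it holds for `Z` and for `P`.

The Tate conjecture is known for all products `P` of elliptic curves. So for each variety `Z` for
which the Tate conjecture is known, it holds for `Z × P` for all products `P` of elliptic curves
outside a finite set of isogeny classes, whose number is at most the number of the irreducible
constituents of the transcendental part `H(Z) / T` of the cohomology and at most one half of its
dimension. If `Z` is a K3 surface whose transcendental part is irreducible then there is at most one
exceptional isogeny class. The bound is attained, for instance for the Kummer surfaces of products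
of two elliptic curves, or if `Z` is a product of members of the family.

The hypothesis `IsGalois` on `Z` is formal and known for all smooth projective varieties: the
compatibility of the orientation with `χ`, and that a class with a finite orbit under the Galois
group of `F_∞` is a combination of Tate classes (as the representation generated by it is abelian,
Hodge-Tate and pure).

The proof: for a finite set `F` of indices let `N_F ⊆ H(Z)` be the space of the classes with a
finite orbit under the Galois group of the compositum of `F_∞` and the `L i`, `i ∈ F`. As the family
is independent, the intersection of `N_F` and `N_F'` is `N_(F ∩ F')`. The slices of the Tate classes
on `Z × P` are in `N_F`. If `N_F` is not `N_∅ = T` for some `F` one takes such an `F` which is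
minimal, puts one element of it into `E`, removes this element from the set of indices and
continues. The spaces `N_F` of the minimal sets `F` which occur are independent modulo `T`; if `H(Z)`
is semisimple they are self-dual modulo `T`, and have at least the dimension two.
-/

set_option autoImplicit false

namespace Pool.Agent.L5helper68.Old.IndependentFamiliesTate

open Pool.Agent.H914 Pool.Agent.H914.VarClass Pool.Agent.H914.VarClass.Obj
  Pool.Agent.H914.WeilCohomology Pool.Agent.TH125.Gal Pool.Agent.W552 Pool.Agent.H281R3.HT
open Pool.Agent.L5helper68.TF

universe u w

variable {k : Type u} [Field k] {𝒱 : VarClass k} {ops : CycleOps 𝒱}
  {W : WeilCohomology.{u, 0} ops} {Γ : Type} [Group Γ]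

/-- **The Tate conjecture for the products of an arbitrary variety with the varieties of an
independent family.** -/
theorem result {ι : Type w} (χ : Γ →* W.Kˣ) (N : ι → Subgroup Γ) (hN : Independent χ N)
    (Z : GVar W Γ) (hZ : IsGalois χ Z) :
    ∃ E : Set ι, E.Finite ∧ HasChain Z.act (tateClasses χ Z) E.ncard ∧
      (SemisimpleAct Z.act → 2 * E.ncard ≤ codim W.K (tateClasses χ Z)) ∧
      ∀ F : Finset ι, (∀ i ∈ F, i ∉ E) → ∀ P : GVar W Γ, BelongsTo χ N F P →
        TateKunneth χ Z P ∧ ∀ Y : GVar W Γ, IsProduct Z P Y →
          HasPoint (algClasses W Z.X Z.X.dim) (W.tr Z.X) →
          HasPoint (algClasses W P.X P.X.dim) (W.tr P.X) →
          (TateConjecture χ Y ↔ TateConjecture χ Z ∧ TateConjecture χ P) :=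
  Pool.Agent.L5helper68.TF.final χ N hN Z hZ

end Pool.Agent.L5helper68.Old.IndependentFamiliesTate
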